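import Pool.Agent.X304.Ec.Main

/-!
# `L_1 + L_∞` is not isomorphic to a dual space

`SumSpace` is the space `L_1 + L_∞` on `(0, ∞)` with Lebesgue measure: the sum of the two
subspaces `L_1` and `L_∞` of the space of classes of measurable functions, normed by
`‖x‖ = inf (‖u‖_1 + ‖v‖_∞)` over the decompositions `x = u + v`.  There is no linear
homeomorphism of `SumSpace` onto the dual of a normed space.

## The proof

Let `T : L_1 + L_∞ → Y*` be an isomorphism.  For `t` in `(0, 1)` let `Φ t` be a weak-star cluster
point of the averages `T (1_I / |I|)` over the intervals `I` shrinking to `t`; for each `y` of `Y`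
the functional `x ↦ (T x) y` restricted to functions on `(0, 1)` has an integrable density `g_y`,
and `Φ t y = g_y t` for almost all `t`.  Write `T⁻¹ (Φ t) = u_t + v_t` with `u_t` in `L_1` and
`v_t` bounded.  As `L_1` is separable, there is `q` in `L_1` such that `‖u_t - q‖ < ε` for a set
`E` of `t` of positive outer measure.  Choose disjoint sets `J_1, …, J_m` of small positive measure
on which `E` is thick.  The `m` functionals `x ↦ ∫_{J_k} x` on `Y* = L_1 + L_∞` have all their
signed sums of norm at most a constant, so a form of Helly's theorem for `m`-tuples gives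
`y_1, …, y_m` in `Y` with all signed sums bounded, with `(T q) y_k` small and with
`(T 1_{J_k}) y_k` near `|J_k|`.  Hence there are `t_k` in `E ∩ J_k` with `Φ t_k y_k ≥ 7/8`, and so
`(T v_{t_k}) y_k ≥ 1/2`.  But `z ↦ (T z) y_k` are functionals on the space of bounded functions
whose signed sums are bounded, and a Riesz product argument shows that then `m` is bounded.
-/

set_option autoImplicit false

universe w

open Pool.Agent.X304.Ec

/-- **`L_1 + L_∞` is not isomorphic to a dual space**: for no normed space `Y` is there a linear
homeomorphism of `L_1 + L_∞` (on `(0, ∞)`, with the norm `inf (‖u‖_1 + ‖v‖_∞)`) onto the dual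
of `Y`. -/
theorem Pool.Agent.Results.MP_ec556a_an.NotDual.result :
    ∀ (Y : Type w) [NormedAddCommGroup Y] [NormedSpace ℝ Y],
      IsEmpty (SumSpace ≃L[ℝ] StrongDual ℝ Y) :=
  fun _ _ _ => ⟨fun T => SumSpace.no_iso T⟩
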